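import Pool.Agent.H190.HY211.SOLVE
import Pool.Agent.H207.BT.Stm

/-!
# Project BT, SOLVE3: solving the equations, with targets which depend on the scale
-/

set_option autoImplicit false

open Topology Filter Metric Set

namespace Pool.Agent.H299.BT207

open Pool.Agent.H211.HY Pool.Agent.H190.HY211

theorem t_SOLVE3 (h1 : Pool.Agent.H211.HY.S_SCALE) (h2 : Pool.Agent.H207.BT.S_FOL2) :
    Pool.Agent.H207.BT.S_SOLVE3 := by
  intro k f v z x ρ C c μ κ hG Tg hT r₁ hr₁
  rcases Nat.eq_zero_or_pos k with hk | hk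
  · subst hk
    exact ⟨0, by rw [norm_zero]; exact hr₁, fun i => i.elim0⟩
  have i₀ : Fin k := ⟨0, hk⟩
  have hG0 := hG i₀
  have hC0 : 0 < C := lt_of_lt_of_le one_pos hG0.C1
  obtain ⟨κ₀, hκ₀, hκ⟩ := exists_pos_le (fun i => ‖κ i‖) fun i => norm_pos_iff.2 (hG i).κ0
  obtain ⟨A, hA, hT'⟩ := hT (κ₀ / 64) (by positivity)
  -- following
  have hF := fun i => h2 k i (f i) (v i) (z i) (x i) ρ C c μ (κ i) (hG i) (κ₀ / 64)
    (by positivity) (1 / (2 * C)) (by positivity)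
  choose θ hθ rr hrr N₀ hN₀ using hF
  obtain ⟨θ₁, hθ₁, hθle⟩ := exists_pos_le θ hθ
  obtain ⟨r', hr', hrle⟩ := exists_pos_le rr hrr
  obtain ⟨θ', hθ'⟩ : ∃ θ' : ℝ, θ' = min θ₁ (1 / C) := ⟨_, rfl⟩
  have hθ'0 : 0 < θ' := by
    rw [hθ']
    exact lt_min hθ₁ (by positivity)
  -- scales
  set p : Fin k → ℕ → ℝ := fun i n => ‖DD (f i) (z i) n‖ with hp
  have hp0 : ∀ i, p i 0 = 1 := by
    intro i
    simp [hp, DD]
  have hDne : ∀ i n, DD (f i) (z i) n ≠ 0 := by
    intro i n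
    unfold DD
    exact Finset.prod_ne_zero_iff.2 fun j _ => ((hG i).dx j).1
  have hpp : ∀ i n, 0 < p i n := fun i n => norm_pos_iff.2 (hDne i n)
  have hprec : ∀ i n, p i (n + 1) ≤ C * x i n * p i n := by
    intro i n
    have e1 : DD (f i) (z i) (n + 1) = DD (f i) (z i) n * deriv (f i n 0) (z i n) := by
      unfold DD
      rw [Finset.prod_range_succ]
    rw [hp]
    simp only
    rw [e1, norm_mul, mul_comm]
    exact mul_le_mul_of_nonneg_right ((hG i).dx n).2 (norm_nonneg _)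
  obtain ⟨ε₁, hε₁, hsc⟩ := h1 k C c μ p x hG0.C1 hG0.c0 hG0.μ1 hp0 (fun i n => (hG i).gr n)
    (fun i n => (hG i).xx n) hprec θ' hθ'0 A hA
  obtain ⟨r₀, hr₀, hT''⟩ := hT' ε₁ hε₁
  -- large times
  obtain ⟨M, hM⟩ : ∃ M : ℕ, ∀ i, N₀ i ≤ M :=
    ⟨Finset.univ.sup N₀, fun i => Finset.le_sup (Finset.mem_univ i)⟩
  -- small scales
  obtain ⟨r₂, hr₂, hr₂'⟩ : ∃ r₂ > (0 : ℝ), ∀ r : ℝ, 0 < r → r < r₂ → ∀ i, ∀ n < M,
      r * p i n < ε₁ ∧ r * p i n < A * x i n := by
    have hfin : ∀ j : Fin k × Fin M, ∀ᶠ r : ℝ in 𝓝[>] 0, r * p j.1 j.2 < ε₁ ∧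
        r * p j.1 j.2 < A * x j.1 j.2 := by
      intro j
      have ht : Tendsto (fun r : ℝ => r * p j.1 j.2) (𝓝[>] 0) (𝓝 0) := by
        have h3 : Tendsto (fun r : ℝ => r * p j.1 j.2) (𝓝 0) (𝓝 (0 * p j.1 j.2)) :=
          tendsto_id.mul_const _
        rw [zero_mul] at h3
        exact h3.mono_left nhdsWithin_le_nhds
      exact (ht.eventually_lt_const hε₁).and
        (ht.eventually_lt_const (mul_pos hA ((hG j.1).xx j.2).1))
    have h3 := eventually_all.2 hfin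
    obtain ⟨r₂, hr₂, hsub⟩ := mem_nhdsGT_iff_exists_Ioo_subset.1 h3
    exact ⟨r₂, hr₂, fun r hr hrr2 i n hn => hsub ⟨hr, hrr2⟩ (i, ⟨n, hn⟩)⟩
  obtain ⟨r, hr, hrlt, hall⟩ := hsc (min (min r' r₁) (min (min r₀ 1) r₂)) (by
    refine lt_min (lt_min hr' hr₁) (lt_min (lt_min hr₀ one_pos) hr₂))
  have hrr' : r < r' := hrlt.trans_le ((min_le_left _ _).trans (min_le_left _ _))
  have hrr₁ : r < r₁ := hrlt.trans_le ((min_le_left _ _).trans (min_le_right _ _))
  have hrr₀ : r < r₀ := hrlt.trans_le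
    ((min_le_right _ _).trans ((min_le_left _ _).trans (min_le_left _ _)))
  have hr1 : r < 1 := hrlt.trans_le
    ((min_le_right _ _).trans ((min_le_left _ _).trans (min_le_right _ _)))
  have hrr₂ : r < r₂ := hrlt.trans_le ((min_le_right _ _).trans (min_le_right _ _))
  choose N hNs hNa using hall
  have hNM : ∀ i, M ≤ N i := by
    intro i
    by_contra hcon
    push Not at hcon
    have h3 := hr₂' r hr hrr₂ i (N i) hcon
    rcases hNa i with h4 | h4
    · linarith [h3.1]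
    · linarith [h3.2]
  have hfollow : ∀ i, DifferentiableOn ℂ (YY (f i) (v i) (N i)) (ball 0 r) ∧
      ∀ s ∈ ball (0 : Fin k → ℂ) r, (∀ n < N i, ‖YY (f i) (v i) n s - z i n‖ < ρ ∧
        ‖s‖ + ‖YY (f i) (v i) n s - z i n‖ ≤ 1 / (2 * C) * x i n) ∧
        ‖YY (f i) (v i) (N i) s - z i (N i) - κ i * DD (f i) (z i) (N i) * s i‖ ≤
          κ₀ / 64 * r * ‖DD (f i) (z i) (N i)‖ := by
    intro i
    refine hN₀ i r (N i) hr (hrr'.le.trans (hrle i)) ((hM i).trans (hNM i)) ?_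
    exact (hNs i).trans ((by rw [hθ']; exact min_le_left _ _ : θ' ≤ θ₁).trans (hθle i))
  -- the size of the derivative
  have hone : ∀ i, r * ‖DD (f i) (z i) (N i)‖ ≤ 1 := by
    intro i
    have hbound : ∀ m, N i = m → r * p i m ≤ 1 := by
      intro m hm
      rcases m with _ | n
      · rw [hp0 i, mul_one]
        exact hr1.le
      · have hs := hNs i
        rw [hm] at hs
        have hterm : r * p i n / x i n ≤ θ' := by
          refine le_trans ?_ hs
          exact Finset.single_le_sum (f := fun n => r * p i n / x i n)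
            (fun j _ => div_nonneg (mul_nonneg hr.le (hpp i j).le) ((hG i).xx j).1.le)
            (Finset.mem_range.2 (Nat.lt_succ_self n))
        have hx := (hG i).xx n
        have h5 : r * p i n ≤ θ' * x i n := (div_le_iff₀ hx.1).1 hterm
        have h6 : θ' ≤ 1 / C := by rw [hθ']; exact min_le_right _ _
        calc r * p i (n + 1) ≤ r * (C * x i n * p i n) :=
              mul_le_mul_of_nonneg_left (hprec i n) hr.le
          _ = C * x i n * (r * p i n) := by ring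
          _ ≤ C * x i n * (θ' * x i n) :=
              mul_le_mul_of_nonneg_left h5 (mul_nonneg hC0.le hx.1.le)
          _ = C * θ' * (x i n * x i n) := by ring
          _ ≤ C * θ' * 1 := mul_le_mul_of_nonneg_left
              (mul_le_one₀ hx.2 hx.1.le hx.2) (by positivity)
          _ ≤ C * (1 / C) * 1 := by
              apply mul_le_mul_of_nonneg_right _ zero_le_one
              exact mul_le_mul_of_nonneg_left h6 hC0.le
          _ = 1 := by field_simp
    exact hbound (N i) rfl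
  -- the targets
  have htar : ∀ i, ∃ q : (Fin k → ℂ) → ℂ,
      (∀ s ∈ ball (0 : Fin k → ℂ) r, Tg i (N i) s (q s)) ∧
      (∀ s ∈ ball (0 : Fin k → ℂ) r, ∀ s' ∈ ball (0 : Fin k → ℂ) r,
        ‖q s - q s'‖ ≤ κ₀ / 64 * ‖DD (f i) (z i) (N i)‖ * ‖s - s'‖) ∧
      ‖q 0 - z i (N i)‖ ≤ κ₀ / 64 * (r * ‖DD (f i) (z i) (N i)‖) := fun i =>
    hT'' i (N i) r hr hrr₀.le (hone i) (hNa i)
  choose q hTg hqL hq0 using htar
  obtain ⟨s, hs, hsol⟩ := solve_aux hr hκ₀ (fun i => YY (f i) (v i) (N i)) q κ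
    (fun i => DD (f i) (z i) (N i)) (fun i => z i (N i)) hκ (fun i => hDne i (N i))
    (fun i => (hfollow i).1) (fun i s hs => ((hfollow i).2 s hs).2)
    (fun i => (hq0 i).trans (le_of_eq (by ring))) hqL
  have hsr : s ∈ ball (0 : Fin k → ℂ) r := by rw [mem_ball_zero_iff]; linarith
  refine ⟨s, by linarith, fun i => ⟨N i, ?_, fun n hn => ?_⟩⟩
  · have h3 : YY (f i) (v i) (N i) s = q i s := hsol i
    rw [h3]
    exact hTg i s hsr
  · obtain ⟨h3, h4⟩ := ((hfollow i).2 s hsr).1 n hn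
    refine ⟨h3, h4.trans (le_of_eq ?_)⟩
    ring

end Pool.Agent.H299.BT207
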